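import Pool.Agent.ISB.StmtsC

/-!
# Squad ISB, row CNT
-/

set_option autoImplicit false

namespace Pool.Agent.ISB.H38

open scoped Classical commutatorElement

/-- The homomorphism `x ↦ x⁻¹ * τ x`. -/
private def cntHom {Q : Type} [CommGroup Q] (τ : Q →* Q) : Q →* Q where
  toFun x := x⁻¹ * τ x
  map_one' := by simp
  map_mul' x y := by
    rw [map_mul, mul_inv]
    exact mul_mul_mul_comm _ _ _ _

private theorem cnt_fix {Q : Type} [CommGroup Q] (hQ : IsPGroup 2 Q) {r : ℕ} (hodd : Odd r)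
    (τ : Q →* Q) (hτ : ∀ x, (τ^[r]) x = x) (x : Q)
    (h : τ (x⁻¹ * τ x) = x⁻¹ * τ x) : x⁻¹ * τ x = 1 := by
  set w := x⁻¹ * τ x with hw
  have h1 : τ x = x * w := by rw [hw, mul_inv_cancel_left]
  have h2 : ∀ i, (τ^[i]) x = x * w ^ i := by
    intro i
    induction i with
    | zero => simp
    | succ i ih =>
      rw [Function.iterate_succ_apply', ih, map_mul, map_pow, h, h1, pow_succ', mul_assoc]
  have h3 : w ^ r = 1 := by
    have h4 := h2 r
    rw [hτ] at h4
    exact (mul_eq_left.1 h4.symm)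
  have h4 : (orderOf w).Coprime r :=
    hQ.orderOf_coprime ((Nat.coprime_two_left).2 hodd) w
  exact orderOf_eq_one_iff.1 (Nat.Coprime.eq_one_of_dvd h4 (orderOf_dvd_of_pow_eq_one h3))

private theorem cnt_card {Q : Type} [CommGroup Q] [Finite Q] {r : ℕ} (hr : r.Prime)
    (τ : Q →* Q) (hτ : ∀ x, (τ^[r]) x = x) (K : Subgroup Q) (hK : ∀ x ∈ K, τ x ∈ K)
    (hf : ∀ x ∈ K, τ x = x → x = 1) : Nat.card K ≡ 1 [MOD r] := by
  have : Fact r.Prime := ⟨hr⟩
  have : Fintype Q := Fintype.ofFinite Q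
  let f : Function.End K := fun x => ⟨τ x, hK x x.2⟩
  have h1 : ∀ (n : ℕ) (x : K), (((f ^ n : Function.End K) x : K) : Q) = (τ^[n]) (x : Q) := by
    intro n
    induction n with
    | zero => intro x; rfl
    | succ n ih =>
      intro x
      rw [pow_succ']
      change τ (((f ^ n : Function.End K) x : K) : Q) = _
      rw [ih, Function.iterate_succ_apply']
  have h2 : f ^ r ^ 1 = 1 := by
    rw [pow_one]
    funext x
    apply Subtype.ext
    rw [h1, hτ]
    rfl
  have h3 := Equiv.Perm.card_fixedPoints_modEq h2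
  have h4 : Fintype.card f.fixedPoints = 1 := by
    rw [Fintype.card_eq_one_iff]
    refine ⟨⟨1, ?_⟩, ?_⟩
    · apply Subtype.ext
      exact map_one τ
    · rintro ⟨⟨x, hx⟩, hx'⟩
      have h5 : τ x = x := congrArg Subtype.val hx'
      have h6 := hf x hx h5
      subst h6
      rfl
  rw [h4] at h3
  rw [Nat.card_eq_fintype_card]
  exact h3

/-- Row CNT. -/
theorem cnt : CntStmt := by
  intro Q _ _ hQ r hr hodd τ U hτ hU hst
  by_contra hcon
  push Not at hcon
  have : Fintype Q := Fintype.ofFinite Q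
  obtain ⟨W, hmem⟩ : ∃ W : Subgroup Q, ∀ w, w ∈ W ↔ ∃ x, x⁻¹ * τ x = w :=
    ⟨(cntHom τ).range, fun w => Iff.rfl⟩
  have hfix : ∀ w ∈ W, τ w = w → w = 1 := by
    intro w hw h
    obtain ⟨x, rfl⟩ := (hmem w).1 hw
    exact cnt_fix hQ hodd τ hτ x h
  have hWst : ∀ w ∈ W, τ w ∈ W := by
    intro w hw
    obtain ⟨x, rfl⟩ := (hmem w).1 hw
    exact (hmem _).2 ⟨τ x, by rw [map_mul, map_inv]⟩
  have hWc : Nat.card W ≡ 1 [MOD r] := cnt_card hr τ hτ W hWst hfix
  have hr2 : 2 ≤ r := hr.two_le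
  have hWpos : 0 < Nat.card W := Nat.card_pos
  have hk : ∀ k < r, (r + 1) * Nat.card (W ⊓ U k : Subgroup Q) ≤ Nat.card W := by
    intro k hkr
    have h1 : Nat.card (W ⊓ U k : Subgroup Q) ≡ 1 [MOD r] := by
      refine cnt_card hr τ hτ _ (fun x hx => ?_) (fun x hx => hfix x (Subgroup.mem_inf.1 hx).1)
      obtain ⟨h2, h3⟩ := Subgroup.mem_inf.1 hx
      exact Subgroup.mem_inf.2 ⟨hWst x h2, hst k x h3⟩
    obtain ⟨m, hm⟩ := Subgroup.card_dvd_of_le (inf_le_left : W ⊓ U k ≤ W)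
    have hm1 : m ≡ 1 [MOD r] := by
      have h2 : Nat.card (W ⊓ U k : Subgroup Q) * m ≡ 1 * m [MOD r] := h1.mul_right m
      rw [← hm, one_mul] at h2
      exact h2.symm.trans hWc
    have hm0 : m ≠ 0 := by
      rintro rfl
      rw [mul_zero] at hm
      omega
    have hmne : m ≠ 1 := by
      rintro rfl
      rw [mul_one] at hm
      have h3 : W ⊓ U k = W := Subgroup.eq_of_le_of_card_ge inf_le_left hm.le
      obtain ⟨x, hx⟩ := hcon k hkr
      have h4 : x⁻¹ * τ x ∈ W ⊓ U k := by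
        rw [h3]
        exact (hmem _).2 ⟨x, rfl⟩
      exact hx (Subgroup.mem_inf.1 h4).2
    have hmr : r + 1 ≤ m := by
      have h3 : r ∣ m - 1 := (Nat.modEq_iff_dvd' (by omega)).1 hm1.symm
      have h4 := Nat.le_of_dvd (by omega) h3
      omega
    rw [hm, mul_comm]
    exact Nat.mul_le_mul_left _ hmr
  have hcov : Nat.card W ≤ ∑ k ∈ Finset.range r, Nat.card (W ⊓ U k : Subgroup Q) := by
    have h1 : ∀ K : Subgroup Q, Nat.card K = (Finset.univ.filter (fun x => x ∈ K)).card := by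
      intro K
      rw [Nat.card_eq_fintype_card, Fintype.card_subtype]
    simp only [h1]
    refine le_trans (Finset.card_le_card ?_) Finset.card_biUnion_le
    intro x hx
    obtain ⟨k, hkr, hxk⟩ := hU x
    rw [Finset.mem_biUnion]
    exact ⟨k, Finset.mem_range.2 hkr, Finset.mem_filter.2 ⟨Finset.mem_univ _,
      Subgroup.mem_inf.2 ⟨(Finset.mem_filter.1 hx).2, hxk⟩⟩⟩
  have h5 : (r + 1) * ∑ k ∈ Finset.range r, Nat.card (W ⊓ U k : Subgroup Q) ≤
      r * Nat.card W := by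
    rw [Finset.mul_sum]
    refine (Finset.sum_le_sum fun k hk' => hk k (Finset.mem_range.1 hk')).trans ?_
    rw [Finset.sum_const, Finset.card_range, smul_eq_mul]
  have h6 : (r + 1) * Nat.card W ≤ r * Nat.card W := (Nat.mul_le_mul_left _ hcov).trans h5
  have h7 := Nat.le_of_mul_le_mul_right h6 hWpos
  omega

end Pool.Agent.ISB.H38
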